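import Pool.Agent.helper47.TFQ.Spec

/-!
# Row ta:QD10 (project tfq): the relation for all points, the coefficients in any finite field
-/

set_option autoImplicit false

namespace Pool.Agent.TFQ

open Polynomial Pool.Agent.GJ Pool.Agent.TK
open Pool.Agent.FJ (VT Om chiO IsFrobO rf rs)
open Pool.Agent.TD (zK)

noncomputable section

theorem QD10_chi {F : Type} [Field F] [Fintype F] {l α n : ℕ} (μ : Fin (n + 1) → ℕ) (hα : l * α = cq F - 1)
    (w : Fin (n + 1) → F) (hw : ∀ j, w j ≠ 0) : chq α μ w ^ l = 1 := by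
  rw [chq, ← Finset.prod_pow]
  apply Finset.prod_eq_one
  intro j _
  rw [← pow_mul, show μ j * α * l = (cq F - 1) * μ j by rw [← hα]; ring, pow_mul,
    FiniteField.pow_card_sub_one_eq_one _ (hw j), one_pow]

theorem QD10_pow {F : Type} [Field F] [Fintype F] (x : F) (m : ℕ) : x ^ cq F ^ m = x := by
  induction m with
  | zero => rw [pow_zero, pow_one]
  | succ m ih => rw [pow_succ, pow_mul, ih, FiniteField.pow_card]

theorem QD10_cst {F : Type} [Field F] [Fintype F] {K : Type} [Field K] (e : F →+* K) (x : F) (m : ℕ) :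
    (e x) ^ cq F ^ m = e x := by
  rw [← map_pow, QD10_pow]

section
variable {F : Type} [Field F] [Fintype F] [DecidableEq F]
variable {K : Type} [Field K] [IsAlgClosed K] {p M l α n : ℕ} [Fact p.Prime]
  [CharP K p] [Fact l.Prime] [NeZero (l : K)] {μ : Fin (n + 1) → ℕ} {a : Fin (n + 1) → F}

omit [DecidableEq F] [IsAlgClosed K] [NeZero (l : K)] in
/-- the image of a point exists -/
theorem QD10_pt (e : F →+* K) (hM : cq F = p ^ M) (q : Pc K l μ (bQ e a)) (m : ℕ) (x : K) (hx : x ^ l = 1) :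
    ∃ q' : Pc K l μ (bQ e a), q'.1 = (q.1.1 ^ cq F ^ m, x * q.1.2 ^ cq F ^ m) := by
  refine ⟨⟨(q.1.1 ^ cq F ^ m, x * q.1.2 ^ cq F ^ m), ?_, ?_⟩, rfl⟩
  · show (x * q.1.2 ^ cq F ^ m) ^ l = ∏ j, (q.1.1 ^ cq F ^ m - bQ e a j) ^ μ j
    rw [mul_pow, hx, one_mul, ← pow_mul, mul_comm (cq F ^ m) l, pow_mul, q.2.1, ← Finset.prod_pow]
    refine Finset.prod_congr rfl fun j _ => ?_
    have h1 : (q.1.1 - bQ e a j) ^ cq F ^ m = q.1.1 ^ cq F ^ m - bQ e a j := by
      have h2 : bQ e a j = (bQ e a j) ^ cq F ^ m := (QD10_cst e (a j) m).symm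
      have h3 : cq F ^ m = p ^ (M * m) := by rw [hM, ← pow_mul]
      calc (q.1.1 - bQ e a j) ^ cq F ^ m = q.1.1 ^ cq F ^ m - (bQ e a j) ^ cq F ^ m := by
            rw [h3]; exact sub_pow_char_pow _ _ _
        _ = _ := by rw [← h2]
    rw [← h1, ← pow_mul, ← pow_mul, mul_comm]
  · have h1 : IsUnit x := by
      have : x ≠ 0 := by
        rintro rfl
        rw [zero_pow (Fact.out (p := l.Prime)).ne_zero] at hx
        exact zero_ne_one hx
      exact isUnit_iff_ne_zero.mpr this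
    exact h1.mul (q.2.2.pow _)

variable (e : F →+* K) [Good K l μ (bQ e a)] [IsDedekindDomain (CR K l μ (bQ e a))]

omit [DecidableEq F] in
/-- the endomorphisms of the class group -/
theorem QD10_F (hKA7 : TK.KA7_stmt) (hM : cq F = p ^ M) (m : ℕ) (x : K) (hx : x ^ l = 1) :
    ∃ φ : ClassGroup (CR K l μ (bQ e a)) →* ClassGroup (CR K l μ (bQ e a)),
      ∀ q q' : Pc K l μ (bQ e a), q'.1 = (q.1.1 ^ cq F ^ m, x * q.1.2 ^ cq F ^ m) →
        φ (cl q) = cl q' := by
  have hx0 : x ≠ 0 := by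
    rintro rfl
    rw [zero_pow (Fact.out (p := l.Prime)).ne_zero] at hx
    exact zero_ne_one hx
  have hx' : x⁻¹ ^ l = 1 := by rw [inv_pow, hx, inv_one]
  have hQ : cq F ^ m = p ^ (M * m) := by rw [hM, ← pow_mul]
  have hσ : ∀ j, iterateFrobeniusEquiv K p (M * m) (bQ e a j) = bQ e a j := fun j => by
    show (bQ e a j) ^ p ^ (M * m) = bQ e a j
    rw [← hQ]
    exact QD10_cst e (a j) m
  refine ⟨(ClassGroup.mulEquiv (CR.aut (iterateFrobeniusEquiv K p (M * m)) hσ
    (rootsOfUnity.mkOfPowEq x⁻¹ hx'))).toMonoidHom, ?_⟩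
  intro q q' hq
  rw [hQ] at hq
  refine (hKA7 K l n μ (bQ e a)).1 (iterateFrobeniusEquiv K p (M * m)) hσ
    (rootsOfUnity.mkOfPowEq x⁻¹ hx') q q' ?_ ?_
  · rw [hq]
    rfl
  · rw [hq, rootsOfUnity.coe_mkOfPowEq]
    show x⁻¹ * (x * q.1.2 ^ p ^ (M * m)) = q.1.2 ^ p ^ (M * m)
    rw [← mul_assoc, inv_mul_cancel₀ hx0, one_mul]

theorem QD10_T (hKA7 : TK.KA7_stmt) (hM : cq F = p ^ M) (hα : l * α = cq F - 1) :
    ∃ T : ClassGroup (CR K l μ (bQ e a)) →* ClassGroup (CR K l μ (bQ e a)),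
      ∀ (q : Pc K l μ (bQ e a)) (P : (k : ℕ) → (Fin k → F) → Pc K l μ (bQ e a)),
        IsQQ e α a q P → T (cl q) = ∏ k ∈ Finset.range (n + 1), ∏ c ∈ Gq a k, cl (P k c) := by
  classical
  have h1 : ∀ (k : ℕ) (c : Fin k → F),
      ∃ φ : ClassGroup (CR K l μ (bQ e a)) →* ClassGroup (CR K l μ (bQ e a)), c ∈ Gq a k →
      ∀ q q' : Pc K l μ (bQ e a), q'.1 = (q.1.1 ^ cq F ^ (n - k),
        e (chq α μ fun j => (gq c).eval (a j)) * q.1.2 ^ cq F ^ (n - k)) →
        φ (cl q) = cl q' := by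
    intro k c
    by_cases hc : c ∈ Gq a k
    · have hx : (e (chq α μ fun j => (gq c).eval (a j))) ^ l = 1 := by
        rw [← map_pow, QD10_chi μ hα _ (by
          rw [Gq, Finset.mem_filter] at hc
          exact hc.2), map_one]
      obtain ⟨φ, hφ⟩ := QD10_F (F := F) (K := K) (p := p) (M := M) (l := l) (n := n) (μ := μ) (a := a) e hKA7 hM (n - k) _ hx
      exact ⟨φ, fun _ => hφ⟩
    · exact ⟨1, fun h => absurd h hc⟩
  choose φ hφ using h1
  refine ⟨∏ k ∈ Finset.range (n + 1), ∏ c ∈ Gq a k, φ k c, ?_⟩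
  intro q P hQ
  rw [MonoidHom.finsetProd_apply]
  refine Finset.prod_congr rfl fun k hk => ?_
  rw [MonoidHom.finsetProd_apply]
  refine Finset.prod_congr rfl fun c hc => ?_
  exact hφ k c hc q (P k c) (hQ k (by rw [Finset.mem_range] at hk; omega) c hc)

omit [IsAlgClosed K] [NeZero (l : K)] [Good K l μ (bQ e a)]
  [IsDedekindDomain (CR K l μ (bQ e a))] in
/-- construction of the points -/
theorem QD10_Q (hM : cq F = p ^ M) (hα : l * α = cq F - 1) (q : Pc K l μ (bQ e a)) :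
    ∃ P : (k : ℕ) → (Fin k → F) → Pc K l μ (bQ e a), IsQQ e α a q P := by
  have h1 : ∀ (k : ℕ) (c : Fin k → F), ∃ q' : Pc K l μ (bQ e a), c ∈ Gq a k →
      q'.1 = (q.1.1 ^ cq F ^ (n - k),
        e (chq α μ fun j => (gq c).eval (a j)) * q.1.2 ^ cq F ^ (n - k)) := by
    intro k c
    by_cases hc : c ∈ Gq a k
    · have hx : (e (chq α μ fun j => (gq c).eval (a j))) ^ l = 1 := by
        rw [← map_pow, QD10_chi μ hα _ (by
          rw [Gq, Finset.mem_filter] at hc
          exact hc.2), map_one]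
      obtain ⟨q', hq'⟩ := QD10_pt (p := p) (M := M) e hM q (n - k) _ hx
      exact ⟨q', fun _ => hq'⟩
    · exact ⟨q, fun h => absurd h hc⟩
  choose P hP using h1
  exact ⟨P, fun k _ c hc => hP k c hc⟩

end

section
variable {K : Type} [Field K] {l n : ℕ} [Fact l.Prime] {μ : Fin (n + 1) → ℕ} {b : Fin (n + 1) → K}

theorem QD10_inj : Function.Injective (CR.pol : K[X] →+* CR K l μ b) := by
  have h5 : Function.Injective (AdjoinRoot.of (GJ.gp K l μ b)) := by
    refine AdjoinRoot.of.injective_of_degree_ne_zero ?_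
    rw [Polynomial.degree_eq_natDegree (gp_monic K l μ b).ne_zero]
    have hd : (GJ.gp K l μ b).natDegree = l := natDegree_X_pow_sub_C
    rw [hd]
    exact_mod_cast (Fact.out (p := l.Prime)).ne_zero
  exact h5.comp (BR_inj K μ b)

/-- the class of the ideal of a divisor -/
theorem QD10_dv [Good K l μ b] [IsDedekindDomain (CR K l μ b)] (S : Multiset (Pc K l μ b)) :
    ∀ (I : nonZeroDivisors (Ideal (CR K l μ b))), (I : Ideal (CR K l μ b)) = dvI S →
      ClassGroup.mk0 I = (S.map cl).prod := by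
  induction S using Multiset.induction_on with
  | empty =>
    intro I hI
    have : I = 1 := Subtype.ext (by rw [hI]; simp [dvI])
    rw [this, map_one, Multiset.map_zero, Multiset.prod_zero]
  | cons q S ih =>
    intro I hI
    have h1 : (I : Ideal (CR K l μ b)) = ptI q * dvI S := by
      rw [hI, dvI, dvI, Multiset.map_cons, Multiset.prod_cons]
    have hI0 : (I : Ideal (CR K l μ b)) ≠ 0 := nonZeroDivisors.ne_zero I.2
    have h2 : ptI q ∈ nonZeroDivisors (Ideal (CR K l μ b)) := by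
      rw [mem_nonZeroDivisors_iff_ne_zero]
      intro h
      rw [h1, h, zero_mul] at hI0
      exact hI0 rfl
    have h3 : dvI S ∈ nonZeroDivisors (Ideal (CR K l μ b)) := by
      rw [mem_nonZeroDivisors_iff_ne_zero]
      intro h
      rw [h1, h, mul_zero] at hI0
      exact hI0 rfl
    have h4 : I = ⟨ptI q, h2⟩ * ⟨dvI S, h3⟩ := Subtype.ext h1
    rw [h4, map_mul, ih ⟨dvI S, h3⟩ rfl, Multiset.map_cons, Multiset.prod_cons]
    rfl

end

/-- the polynomial whose roots are the exceptional points -/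
def QD10_P (K : Type) [Field K] (Q n : ℕ) : K[X] :=
  ∏ j ∈ Finset.range (n + 1), ∏ i ∈ Finset.range j, (X ^ Q ^ j - X ^ Q ^ i)

theorem QD10_P_ne (K : Type) [Field K] (Q n : ℕ) (hQ1 : 1 < Q) : QD10_P K Q n ≠ 0 := by
  rw [QD10_P, Finset.prod_ne_zero_iff]
  intro j _
  rw [Finset.prod_ne_zero_iff]
  intro i hi h
  rw [Finset.mem_range] at hi
  have h1 := congrArg (fun f => f.coeff (Q ^ j)) h
  have h2 : Q ^ j ≠ Q ^ i := (Nat.pow_lt_pow_right hQ1 hi).ne'
  simp [coeff_X_pow, h2] at h1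

theorem QD10 (hKA3 : TK.KA3_stmt) (hKA5 : TK.KA5_stmt) (hKA7 : TK.KA7_stmt) (hQD9 : QD9_stmt)
    (hKQ1 : TK.KQ1_stmt) : QD10_stmt := by
  intro F _ _ _ K _ _ p M l α n _ _ e hM _ _ μ a _ _ q P hl hα hα0 hQ
  classical
  obtain ⟨T, hT⟩ := QD10_T (F := F) (K := K) (p := p) (M := M) (l := l) (n := n) (μ := μ) (a := a) e hKA7 hM hα
  rw [← hT q P hQ]
  set J : Ideal (CR K l μ (bQ e a)) := Ideal.span {CR.pol (QD10_P K (cq F) n)} with hJ
  have hJ0 : J ≠ ⊥ := by
    rw [hJ, Ne, Ideal.span_singleton_eq_bot]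
    intro h
    exact QD10_P_ne K (cq F) n Fintype.one_lt_card (QD10_inj (h.trans (map_zero _).symm))
  obtain ⟨I, hI1, hI2⟩ := hKQ1 (CR K l μ (bQ e a)) J hJ0 (cl q)
  obtain ⟨-, hA2, -, -, -⟩ := hKA5 K l n μ (bQ e a)
  obtain ⟨S, hS⟩ := hA2 I (nonZeroDivisors.ne_zero I.2)
  rw [← hI1, QD10_dv S I hS, map_multiset_prod, Multiset.map_map]
  apply Multiset.prod_eq_one
  intro y hy
  rw [Multiset.mem_map] at hy
  obtain ⟨q', hq', rfl⟩ := hy
  obtain ⟨P', hP'⟩ := QD10_Q (F := F) (p := p) (M := M) (α := α) e hM hα q'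
  rw [Function.comp_apply, hT q' P' hP']
  refine hQD9 F K p M l α n e hM μ a q' P' hl hα hα0 ?_ hP'
  intro i j hij hjn h
  have hle : dvI S ≤ ptI q' := by
    obtain ⟨S', hS'⟩ := Multiset.exists_cons_of_mem hq'
    rw [hS', dvI, Multiset.map_cons, Multiset.prod_cons]
    exact Ideal.mul_le_left
  have hJle : J ≤ ptI q' := by
    rw [hJ, Ideal.span_singleton_le_iff_mem]
    show ev q' _ = 0
    rw [ev_pol, QD10_P, eval_prod]
    apply Finset.prod_eq_zero (i := j) (Finset.mem_range.mpr (by omega))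
    rw [eval_prod]
    apply Finset.prod_eq_zero (i := i) (Finset.mem_range.mpr hij)
    rw [eval_sub, eval_pow, eval_pow, eval_X, h, sub_self]
  have htop : ptI q' = ⊤ := by
    rw [eq_top_iff, ← hI2, hS]
    exact sup_le hle hJle
  exact ((hKA3 K l n μ (bQ e a)).2 q').1.ne_top htop

end

end Pool.Agent.TFQ
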